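import Pool.Agent.L5helper46.NM.Free

/-!
# Meyniel's bound from path counts, and for graphs with few short paths

`nb G S` is the closed neighbourhood of the set `S` of vertices, so `(nb G)^[t] {v}` is the ball of
radius `t` around `v`. `paths G l u v` is the set of the paths of length `l` from `u` to `v`, and
`cyc G l x` counts the cycles of length `l + 1` through `x` (each in both directions): it is the
number of pairs of a neighbour `w` of `x` and a path of length `l` from `w` back to `x`.
`FewCops G K T` says that some number `≤ K √n` of cops have starting vertices from which they catch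
the robber, wherever he starts, within `T` rounds; in particular `c(G) ≤ K √n`.

Proof idea. A walk which is not a path contains a cycle or goes back at once. So the number `W l`
of walks of length `l` between the members of a set `S` satisfies a recursive inequality, in which
the walks of length `2 h` are bounded by the paths of length `2 h` and by shorter walks. As `W` is
log-convex at even lengths, the shorter walks are controlled by `W 0 = |S|` and `W (2 h)`, and the
recursion closes: `W (2 j) ≤ |S| (K d) ^ j` for `j ≤ h`, for all sets `S` with at most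
`n / d ^ h + 1` members. By Cauchy-Schwarz the balls of radius `j` around `S` have at least
`c d ^ j |S|` vertices. This is the expansion needed for the two teams of cops of the starting file
`NearOptimalExpanders`. No spectral gap is assumed (the graphs need not even be connected).
-/

set_option autoImplicit false

open scoped Classical

namespace Pool.Agent.Results.MP_964892_co.FewShortPaths

open Pool.Agent.Y649.EX Pool.Agent.L5helper46.NM
open Pool.Agent.Results.MP_964892_co.NearOptimalExpanders (FewCops)

/-- (1) Let `K` be large in terms of `t` and `C`. Meyniel's bound `c(G) ≤ K √n` holds for a graph on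
`n` vertices if there is a `d` such that all degrees are between `d` and `C d`, `n ≤ C d ^ (2 t + 2)`,
the balls of radius `t` have at most `√n` vertices, any two vertices are joined by at most
`C d ^ (2 t + 2) / n` paths of length `2 t + 2`, and every vertex is on at most `C d ^ (l / 2)` cycles
of length `l` (counted in both directions), for `3 ≤ l ≤ 2 t + 2`.
(2) Let `K` be large in terms of `k` and `C`. Meyniel's bound `c(G) ≤ K √n` holds for the graphs with
minimum degree at least `d` and at most `C d ^ k` vertices in which any two vertices are joined by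
at most `C` paths of length `l`, for every `l ≤ k`.
(3) In particular it holds if the minimum degree is at least `d`, there are at most `C d ^ k`
vertices, and there is no cycle of length at most `2 k`: these are the graphs whose number of
vertices is within a constant factor of the Moore bound. -/
theorem result :
    (∀ (t : ℕ) (C : ℝ), ∃ K : ℝ, ∀ (V : Type) [Fintype V] (G : SimpleGraph V) (d : ℕ),
      (∀ v, d ≤ G.degree v) → (∀ v, (G.degree v : ℝ) ≤ C * d) →
      (Fintype.card V : ℝ) ≤ C * (d : ℝ) ^ (2 * t + 2) →
      (∀ v, (((nb G)^[t] {v}).card : ℝ) ≤ √(Fintype.card V : ℝ)) →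
      (∀ u v : V, u ≠ v → (Fintype.card V : ℝ) * (paths G (2 * t + 2) u v).card ≤
        C * (d : ℝ) ^ (2 * t + 2)) →
      (∀ l, 3 ≤ l → l ≤ 2 * t + 2 → ∀ x, (cyc G (l - 1) x : ℝ) ≤ C * √(d : ℝ) ^ l) →
      FewCops G K (t + 2)) ∧
    (∀ (k : ℕ) (C : ℝ), ∃ K : ℝ, ∀ (V : Type) [Fintype V] (G : SimpleGraph V) (d : ℕ),
      (∀ v, d ≤ G.degree v) → (Fintype.card V : ℝ) ≤ C * (d : ℝ) ^ k →
      (∀ u v : V, u ≠ v → ∀ l ≤ k, ((paths G l u v).card : ℝ) ≤ C) →
      FewCops G K ((k + 3) / 2)) ∧
    (∀ (k : ℕ) (C : ℝ), ∃ K : ℝ, ∀ (V : Type) [Fintype V] (G : SimpleGraph V) (d : ℕ),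
      (∀ v, d ≤ G.degree v) → (Fintype.card V : ℝ) ≤ C * (d : ℝ) ^ k →
      ((2 * k : ℕ) : ℕ∞) < G.egirth → FewCops G K ((k + 3) / 2)) := by
  have hmono : ∀ (C : ℝ) (x y : ℝ), 0 ≤ y → x ≤ C * y → x ≤ max C 1 * y := fun C x y hy h =>
    le_trans h (mul_le_mul_of_nonneg_right (le_max_left _ _) hy)
  refine ⟨fun t C => ?_, fun k C => ?_, fun k C => ?_⟩
  · obtain ⟨K, hK⟩ := criterion t (max C 1) (le_max_right _ _)
    refine ⟨K, fun V _ G d h1 h2 h3 h4 h5 h6 => hK V G d (fun v => by exact_mod_cast h1 v)
      (fun v => hmono C _ _ (Nat.cast_nonneg _) (h2 v)) (hmono C _ _ (by positivity) h3) h4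
      (fun u v huv => hmono C _ _ (by positivity) (h5 u v huv)) (fun j hj1 hj2 x => ?_)⟩
    rcases Nat.eq_or_lt_of_le hj1 with hj | hj
    · rw [← hj]
      refine le_trans (cyc_le G 1 1 (max C 1 * d) (by norm_num)
        (fun v => hmono C _ _ (Nat.cast_nonneg _) (h2 v)) (fun u v _ => paths_one_le G u v) x) ?_
      rw [mul_one, show 1 + 1 = 2 by norm_num, Real.sq_sqrt (Nat.cast_nonneg _)]
    · have h7 := h6 (j + 1) (by omega) (by omega) x
      rw [Nat.add_sub_cancel] at h7
      exact hmono C _ _ (by positivity) h7
  · obtain ⟨K, hK⟩ := fewPaths_free k (max C 1) (le_max_right _ _)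
    exact ⟨K, fun V _ G d h1 h2 h3 => hK V G d h1 (hmono C _ _ (by positivity) h2)
      (fun u v huv l hl => le_trans (h3 u v huv l hl) (le_max_left _ _))⟩
  · obtain ⟨K, hK⟩ := fewPaths_free k (max C 1) (le_max_right _ _)
    exact ⟨K, fun V _ G d h1 h2 h3 => hK V G d h1 (hmono C _ _ (by positivity) h2)
      (fun u v _ l hl => le_trans (by exact_mod_cast paths_of_girth G k h3 l hl u v)
        (le_max_right _ _))⟩

end Pool.Agent.Results.MP_964892_co.FewShortPaths
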