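import Pool.Agent.L5helper55.PC.Terr

/-!
# MP_964892_co: Meyniel's conjecture is equivalent to efficient partial capture

Instead of catching every robber with `C √n` cops, it suffices to find in each connected graph, for
some number `k ≥ 1` of cops, a placement from which they catch the robber from at least `k √n / C`
of his starting vertices; nothing is required for his other starting vertices. More generally, if
every connected induced subgraph `H` of `G` has a placement of some number `k ≥ 1` of cops which
beats at least `ρ(|H|) k` starting vertices, `ρ` nondecreasing, then `c(G) ≤ ∑_{j ≤ n} 1 / ρ(j)`.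

Proof. Let the `k` cops beat the starting vertices outside `W`. They stay at their places, and
further cops hunt the robber in his component of `G[W]`; as soon as he leaves `W`, the first `k`
cops win. So `c(G) ≤ k + max c(H)` over the connected induced subgraphs `H` of `G[W]`, and
`k ≤ |V \ W| / ρ(n)`.
-/

set_option autoImplicit false
open scoped Classical
open N6ef48c04

namespace Pool.Agent.Results.MP_964892_co.PartialCapture

/-- The `k` cops starting at `c` catch a robber who starts at `r`. -/
def Beats {V : Type} (G : SimpleGraph V) {k : ℕ} (c : Fin k → V) (r : V) : Prop :=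
  ∃ m, CopsCatchWithin G k m c r

/-- For some `k ≥ 1`, there is a placement of `k` cops which beats at least `ρ k` starting vertices
of the robber. -/
def Efficient {V : Type} (G : SimpleGraph V) (ρ : ℝ) : Prop :=
  ∃ k : ℕ, 1 ≤ k ∧ ∃ c : Fin k → V, ρ * k ≤ ({r | Beats G c r} : Set V).ncard

theorem general {V : Type} (G : SimpleGraph V) (ρ : ℕ → ℝ)
    (hmono : Monotone ρ) (hpos : ∀ n, 1 ≤ n → 0 < ρ n)
    (h : ∀ (W : Type) [Fintype W] (H : SimpleGraph W), H.Connected → Nonempty (H ↪g G) →
      Efficient H (ρ (Fintype.card W))) (N : ℕ) :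
    ∀ (W : Type) [Fintype W] (H : SimpleGraph W), Fintype.card W = N → H.Connected →
      Nonempty (H ↪g G) → (copNumber H : ℝ) ≤ ∑ j ∈ Finset.Icc 1 N, 1 / ρ j := by
  induction N using Nat.strong_induction_on with
  | _ N ih =>
    intro W _ H hW hH hemb
    have hne : Nonempty W := hH.nonempty
    have hN1 : 1 ≤ N := by
      rw [← hW]
      exact Fintype.card_pos
    obtain ⟨k, hk, c, hc⟩ := h W H hH hemb
    rw [hW] at hc
    set B : Set W := {r | Beats H c r} with hB
    have hBN : B.ncard ≤ N := by
      have h1 := Set.ncard_le_ncard (Set.subset_univ B) Set.finite_univ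
      rwa [Set.ncard_univ, Nat.card_eq_fintype_card, hW] at h1
    have hk1 : (1 : ℝ) ≤ k := by exact_mod_cast hk
    have hBpos : 0 < B.ncard := by
      have h1 : (0 : ℝ) < B.ncard := lt_of_lt_of_le (mul_pos (hpos N hN1) (by linarith)) hc
      exact_mod_cast h1
    have hterm : ∀ j ∈ Finset.Icc 1 N, 0 ≤ 1 / ρ j := fun j hj =>
      div_nonneg zero_le_one (hpos j (Finset.mem_Icc.mp hj).1).le
    set R : ℝ := ∑ j ∈ Finset.Icc 1 (N - B.ncard), 1 / ρ j with hR
    have hR0 : 0 ≤ R := Finset.sum_nonneg fun j hj =>
      div_nonneg zero_le_one (hpos j (Finset.mem_Icc.mp hj).1).le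
    have hmain : copNumber H ≤ k + ⌊R⌋₊ := by
      refine Pool.Agent.L5helper55.PC.partial_capture H hH c _ fun K hK hconn => ?_
      apply Nat.le_floor
      have hsub : K ⊆ Bᶜ := fun r hr => hK r hr
      have hcard : Fintype.card K ≤ N - B.ncard := by
        have h1 : K.ncard ≤ (Bᶜ).ncard := Set.ncard_le_ncard hsub (Set.toFinite _)
        have h2 : B.ncard + (Bᶜ).ncard = N := by
          rw [Set.ncard_add_ncard_compl, Nat.card_eq_fintype_card, hW]
        have h3 : Fintype.card K = K.ncard := by
          rw [← Nat.card_eq_fintype_card, Nat.card_coe_set_eq]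
        omega
      have h4 := ih (Fintype.card K) (by omega) K (H.induce K) rfl hconn
        (hemb.map fun e => e.comp (SimpleGraph.Embedding.induce K))
      refine h4.trans ?_
      refine Finset.sum_le_sum_of_subset_of_nonneg ?_ ?_
      · exact Finset.Icc_subset_Icc le_rfl hcard
      · intro j hj _
        exact div_nonneg zero_le_one (hpos j (Finset.mem_Icc.mp hj).1).le
    have h5 : (copNumber H : ℝ) ≤ k + R := by
      have h6 : (copNumber H : ℝ) ≤ ((k + ⌊R⌋₊ : ℕ) : ℝ) := by exact_mod_cast hmain
      push_cast at h6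
      have h7 := Nat.floor_le hR0
      linarith
    have hsplit : ∑ j ∈ Finset.Icc 1 N, 1 / ρ j =
        R + ∑ j ∈ Finset.Ioc (N - B.ncard) N, 1 / ρ j := by
      rw [hR, ← Finset.sum_union]
      · congr 1
        ext j
        simp only [Finset.mem_Icc, Finset.mem_union, Finset.mem_Ioc]
        omega
      · rw [Finset.disjoint_left]
        intro j hj hj'
        rw [Finset.mem_Icc] at hj
        rw [Finset.mem_Ioc] at hj'
        omega
    have h8 : (k : ℝ) ≤ ∑ j ∈ Finset.Ioc (N - B.ncard) N, 1 / ρ j := by
      have h9 : ∑ _j ∈ Finset.Ioc (N - B.ncard) N, 1 / ρ N ≤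
          ∑ j ∈ Finset.Ioc (N - B.ncard) N, 1 / ρ j := by
        refine Finset.sum_le_sum fun j hj => ?_
        rw [Finset.mem_Ioc] at hj
        exact one_div_le_one_div_of_le (hpos j (by omega)) (hmono hj.2)
      refine le_trans ?_ h9
      rw [Finset.sum_const, Nat.card_Ioc, nsmul_eq_mul, mul_one_div,
        le_div_iff₀ (hpos N hN1)]
      have h10 : N - (N - B.ncard) = B.ncard := by omega
      rw [h10]
      linarith
    rw [hsplit]
    linarith

lemma sum_sqrt (n : ℕ) : ∑ j ∈ Finset.Icc 1 n, 1 / √(j : ℝ) ≤ 2 * √(n : ℝ) := by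
  induction n with
  | zero => simp
  | succ n ih =>
    rw [Finset.sum_Icc_succ_top (by omega)]
    have h1 : (1 : ℝ) / √((n + 1 : ℕ) : ℝ) ≤ 2 * √((n + 1 : ℕ) : ℝ) - 2 * √(n : ℝ) := by
      have hp : 0 < √((n + 1 : ℕ) : ℝ) := Real.sqrt_pos.2 (by positivity)
      rw [div_le_iff₀ hp]
      have h2 : √((n + 1 : ℕ) : ℝ) * √((n + 1 : ℕ) : ℝ) = n + 1 := by
        rw [Real.mul_self_sqrt (by positivity)]
        push_cast
        ring
      have h3 : √(n : ℝ) * √(n : ℝ) = n := Real.mul_self_sqrt (by positivity)
      nlinarith [sq_nonneg (√((n + 1 : ℕ) : ℝ) - √(n : ℝ))]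
    linarith

theorem meyniel_of_partial (C : ℝ) (hC : 0 < C)
    (h : ∀ (V : Type) [Fintype V] (G : SimpleGraph V), G.Connected →
      Efficient G (√(Fintype.card V) / C)) (V : Type) [Fintype V] (G : SimpleGraph V)
    (hG : G.Connected) : (copNumber G : ℝ) ≤ 2 * C * √(Fintype.card V) := by
  have h1 := general G (fun n => √(n : ℝ) / C) (fun a b hab => by
      apply div_le_div_of_nonneg_right _ hC.le
      exact Real.sqrt_le_sqrt (by exact_mod_cast hab)) (fun n hn => by
      apply div_pos _ hC
      apply Real.sqrt_pos.2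
      exact_mod_cast hn) (fun W _ H hH _ => h W H hH) (Fintype.card V) V G rfl hG
      ⟨SimpleGraph.Embedding.refl⟩
  refine h1.trans ?_
  have h2 : ∑ j ∈ Finset.Icc 1 (Fintype.card V), 1 / (√(j : ℝ) / C) =
      C * ∑ j ∈ Finset.Icc 1 (Fintype.card V), 1 / √(j : ℝ) := by
    rw [Finset.mul_sum]
    refine Finset.sum_congr rfl fun j _ => ?_
    rw [one_div_div, mul_one_div]
  rw [h2]
  have h3 := mul_le_mul_of_nonneg_left (sum_sqrt (Fintype.card V)) hC.le
  linarith

/-- (1) Let `G` be a connected graph on `n` vertices and `ρ` a nondecreasing function, positive on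
the positive integers, such that every connected induced subgraph `H` of `G` with `j` vertices has
for some `k ≥ 1` a placement of `k` cops which beats at least `ρ j * k` starting vertices of the
robber in `H`. Then `c(G) ≤ ∑_{j ≤ n} 1 / ρ j`.
(2) If every connected graph (`n` vertices) has for some `k ≥ 1` a placement of `k` cops which beats
at least `k √n / C` starting vertices of the robber then `c(G) ≤ 2 C √n` for all connected `G`.
(3) So Meyniel's conjecture is equivalent to the existence of such a constant `C`. -/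
theorem result :
    (∀ (V : Type) [Fintype V] (G : SimpleGraph V), G.Connected → ∀ ρ : ℕ → ℝ, Monotone ρ →
      (∀ j, 1 ≤ j → 0 < ρ j) →
      (∀ (W : Type) [Fintype W] (H : SimpleGraph W), H.Connected → Nonempty (H ↪g G) →
        Efficient H (ρ (Fintype.card W))) →
      (copNumber G : ℝ) ≤ ∑ j ∈ Finset.Icc 1 (Fintype.card V), 1 / ρ j) ∧
    (∀ C : ℝ, 0 < C → (∀ (V : Type) [Fintype V] (G : SimpleGraph V), G.Connected →
        Efficient G (√(Fintype.card V) / C)) →
      ∀ (V : Type) [Fintype V] (G : SimpleGraph V), G.Connected →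
        (copNumber G : ℝ) ≤ 2 * C * √(Fintype.card V)) ∧
    ((∃ C : ℝ, 0 < C ∧ ∀ (V : Type) [Fintype V] (G : SimpleGraph V), G.Connected →
        (copNumber G : ℝ) ≤ C * √(Fintype.card V)) ↔
      ∃ C : ℝ, 0 < C ∧ ∀ (V : Type) [Fintype V] (G : SimpleGraph V), G.Connected →
        Efficient G (√(Fintype.card V) / C)) := by
  refine ⟨fun V _ G hG ρ hmono hpos h =>
    general G ρ hmono hpos h (Fintype.card V) V G rfl hG ⟨SimpleGraph.Embedding.refl⟩,
    fun C hC h => meyniel_of_partial C hC h, ?_, ?_⟩
  · rintro ⟨C, hC, h⟩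
    refine ⟨C, hC, fun V _ G hG => ?_⟩
    have hne : Nonempty V := hG.nonempty
    obtain ⟨c, hc⟩ := Pool.Agent.L5helper55.PC.copsWin_copNumber G
    refine ⟨copNumber G, Pool.Agent.L5helper55.PC.copNumber_pos G, c, ?_⟩
    have h1 : ({r | Beats G c r} : Set V) = Set.univ := Set.eq_univ_of_forall hc
    rw [h1, Set.ncard_univ, Nat.card_eq_fintype_card]
    have h2 := h V G hG
    have h3 : √(Fintype.card V : ℝ) * √(Fintype.card V : ℝ) = Fintype.card V :=
      Real.mul_self_sqrt (by positivity)
    rw [div_mul_eq_mul_div, div_le_iff₀ hC]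
    calc √(Fintype.card V : ℝ) * (copNumber G : ℝ)
        ≤ √(Fintype.card V : ℝ) * (C * √(Fintype.card V : ℝ)) :=
          mul_le_mul_of_nonneg_left h2 (Real.sqrt_nonneg _)
      _ = (√(Fintype.card V : ℝ) * √(Fintype.card V : ℝ)) * C := by ring
      _ = Fintype.card V * C := by rw [h3]
  · rintro ⟨C, hC, h⟩
    exact ⟨2 * C, by linarith, fun V _ G hG => meyniel_of_partial C hC h V G hG⟩

end Pool.Agent.Results.MP_964892_co.PartialCapture
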