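import Pool.Agent.L5helper67.Mey.Equiv

set_option autoImplicit false
open scoped Classical
open N6ef48c04

namespace Pool.Agent.Results.MP_964892_co.PolylogDiameter

/-!
# Meyniel's bound for graphs of small diameter and for expanders

Proof idea. Removing sparse vertex cuts again and again yields a set `S` of at most `φ n log₂ n`
vertices such that all the components of `G - S` have vertex expansion `φ`. For
`φ = 1 / (2 (D + 1) (log n + 1) ^ 4)` a team of `4000 √n` cops guards `S`, by the theorem on tree
decompositions of the starting files (with one bag), and the robber stays in one component. A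
component with at most `n / (log n + 1) ^ 2` vertices is cleared by `81 √n` cops. Conversely, the
distances in an expander with expansion `φ` are at most `4 (log n + 1) / φ`.
-/

/-- `H` has vertex expansion `φ`: every set `A` of at most half of the vertices has at least
`φ |A|` neighbours outside `A`. -/
def Expander {W : Type*} (H : SimpleGraph W) (φ : ℝ) : Prop :=
  ∀ A : Set W, 2 * A.ncard ≤ Nat.card W →
    φ * A.ncard ≤ ({w | w ∉ A ∧ ∃ a ∈ A, H.Adj a w} : Set W).ncard

/-- The expansion `1 / (2 (D + 1) (log n + 1) ^ 4)`. -/
noncomputable def rate (D n : ℕ) : ℝ := 1 / (2 * (D + 1) * (Real.log n + 1) ^ 4)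

/-- Meyniel's bound with the constant `C` for all connected graphs on `n` vertices whose distances
are at most `(log n + 1) ^ a`. -/
def ForSmallDiameter (a : ℕ) (C : ℝ) : Prop :=
  ∀ (V : Type) [Fintype V] (G : SimpleGraph V), G.Connected →
    (∀ u v, (G.dist u v : ℝ) ≤ (Real.log (Fintype.card V) + 1) ^ a) →
    (copNumber G : ℝ) ≤ C * √(Fintype.card V)

/-- Meyniel's bound with the constant `C` for all connected graphs on `n` vertices with vertex
expansion `ε / (log n + 1) ^ b`. -/
def ForExpanders (b : ℕ) (ε C : ℝ) : Prop :=
  ∀ (V : Type) [Fintype V] (G : SimpleGraph V), G.Connected →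
    Expander G (ε / (Real.log (Fintype.card V) + 1) ^ b) →
    (copNumber G : ℝ) ≤ C * √(Fintype.card V)

/-- (1) Let `G` be a connected graph on `n` vertices whose distances are at most `D`. There is a set
`S` of at most `n / ((D + 1) (log n + 1) ^ 3)` vertices such that every component of `G - S` has
vertex expansion `1 / (2 (D + 1) (log n + 1) ^ 4)`, and `c(G) ≤ 4081 √n + q` whenever the
components of `G - S` with more than `n / (log n + 1) ^ 2` vertices have cop number at most `q`.
(2) In particular `c(G) ≤ 4081 √n` if no connected induced subgraph of `G` with more than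
`n / (log n + 1) ^ 2` vertices has vertex expansion `1 / (2 (D + 1) (log n + 1) ^ 4)`.
(3) If Meyniel's bound `C √n`, with `C ≥ 0`, holds for all connected graphs with vertex expansion
`4 ^ (-a - 5) (log n + 1) ^ (-a - 4)`, then the bound `(4081 + C) √n` holds for all connected graphs
with distances at most `(log n + 1) ^ a`.
(4) Meyniel's bound (with constants which depend on the parameters) holds for all connected graphs
of polylogarithmic diameter if and only if it holds for all connected graphs of polylogarithmic
vertex expansion. -/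
theorem result :
    (∀ (V : Type) [Fintype V] (G : SimpleGraph V), G.Connected → ∀ D : ℕ,
      (∀ u v, G.dist u v ≤ D) →
      (∃ S : Finset V,
        (S.card : ℝ) * (D + 1) * (Real.log (Fintype.card V) + 1) ^ 3 ≤ Fintype.card V ∧
        (∀ K : (G.induce {v | v ∉ S}).ConnectedComponent,
          Expander K.toSimpleGraph (rate D (Fintype.card V))) ∧
        ∀ q : ℝ, 0 ≤ q → (∀ K : (G.induce {v | v ∉ S}).ConnectedComponent,
            (Fintype.card V : ℝ) < Nat.card K * (Real.log (Fintype.card V) + 1) ^ 2 →
              (copNumber K.toSimpleGraph : ℝ) ≤ q) →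
          (copNumber G : ℝ) ≤ 4081 * √(Fintype.card V) + q) ∧
      ((∀ U : Set V, (G.induce U).Connected →
          (Fintype.card V : ℝ) < U.ncard * (Real.log (Fintype.card V) + 1) ^ 2 →
          ¬ Expander (G.induce U) (rate D (Fintype.card V))) →
        (copNumber G : ℝ) ≤ 4081 * √(Fintype.card V))) ∧
    (∀ (a : ℕ) (C : ℝ), 0 ≤ C → ForExpanders (a + 4) ((1 / 4) ^ (a + 5)) C →
      ForSmallDiameter a (4081 + C)) ∧
    ((∀ a : ℕ, ∃ C : ℝ, ForSmallDiameter a C) ↔
      ∀ (b : ℕ) (ε : ℝ), 0 < ε → ∃ C : ℝ, ForExpanders b ε C) := by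
  refine ⟨fun V _ G hG D hD => ⟨?_, fun h =>
    Pool.Agent.L5helper67.Mey.no_expander G hG D hD h⟩,
    fun a C hC h => Pool.Agent.L5helper67.Mey.small_of_expanders a C hC h,
    fun h b ε hε => Pool.Agent.L5helper67.Mey.expanders_of_small h b ε hε, fun h a => ?_⟩
  · obtain ⟨S, hS, hK, hq⟩ := Pool.Agent.L5helper67.Mey.reduction G hG D hD
    exact ⟨S, hS, fun K => (hK K).1, hq⟩
  · obtain ⟨C, hC⟩ := h (a + 4) ((1 / 4) ^ (a + 5)) (by positivity)
    refine ⟨4081 + max C 0, Pool.Agent.L5helper67.Mey.small_of_expanders a (max C 0)
      (le_max_right _ _) ?_⟩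
    intro V _ G hG hE
    refine (hC V G hG hE).trans ?_
    exact mul_le_mul_of_nonneg_right (le_max_left _ _) (Real.sqrt_nonneg _)

end Pool.Agent.Results.MP_964892_co.PolylogDiameter
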