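import Pool.Agent.L5helper67.Mey.General

set_option autoImplicit false
open scoped Classical
open N6ef48c04

namespace Pool.Agent.Results.MP_964892_co.ReductionToExpanders

/-!
# Meyniel's conjecture is equivalent to its restriction to expanders of small degree

Proof idea. While the territory of the robber (a connected induced subgraph) has a shortest path
with `B` vertices or a closed neighbourhood with `B` vertices, one cop guards it; this costs at most
`n / B` cops. The remaining territory `H` has diameter and maximum degree less than `B`. Removing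
sparse vertex cuts again and again yields a set `S` of at most `φ n log₂ n` vertices such that all
the components of `H - S` have vertex expansion `φ`, for `φ = 1 / (2 B (log n + 1) ^ 4)`. By the
theorem on tree decompositions of the starting files (with one bag) `4000 √n` cops guard `S`, since
`|S| B (log n + 1) ^ 3 ≤ n`. Components with at most `n / (log n + 1) ^ 2` vertices are cleared by
`81 √n` cops, by the bound `81 √m (log m + 1)` of the starting files.
-/

/-- `H` has vertex expansion `φ`: every set `A` of at most half of the vertices has at least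
`φ |A|` neighbours outside `A`. -/
def Expander {W : Type*} (H : SimpleGraph W) (φ : ℝ) : Prop :=
  ∀ A : Set W, 2 * A.ncard ≤ Nat.card W →
    φ * A.ncard ≤ ({w | w ∉ A ∧ ∃ a ∈ A, H.Adj a w} : Set W).ncard

/-- Meyniel's bound with the constant `C`, for the connected graphs with `n` vertices, maximum
degree at most `4 √n (log n + 1)` and vertex expansion `1 / (4096 √n (log n + 1) ^ 5)`. -/
def MeynielForExpanders (C : ℝ) : Prop :=
  ∀ (V : Type) [Fintype V] (G : SimpleGraph V), G.Connected →
    (∀ v, (({w | G.Adj v w} : Set V).ncard : ℝ) ≤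
      4 * √(Fintype.card V) * (Real.log (Fintype.card V) + 1)) →
    Expander G (1 / (4096 * √(Fintype.card V) * (Real.log (Fintype.card V) + 1) ^ 5)) →
    (copNumber G : ℝ) ≤ C * √(Fintype.card V)

/-- (1) Let `G` be a connected graph on `n` vertices, `B ≥ 1` and `q ≥ 0`. Suppose that
`c(G[U]) ≤ q` for all sets `U` of more than `n / (log n + 1) ^ 2` vertices such that `G[U]` is
connected, has maximum degree less than `B - 1` and has vertex expansion
`1 / (2 B (log n + 1) ^ 4)`. Then `c(G) ≤ n / B + 4162 √n + q`.
(2) If Meyniel's bound `C √n`, with `C ≥ 0`, holds for all connected graphs with maximum degree at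
most `4 √n (log n + 1)` and vertex expansion `1 / (4096 √n (log n + 1) ^ 5)`, then all connected
graphs satisfy `c(G) ≤ (4163 + C) √n`.
(3) So Meyniel's conjecture is equivalent to its restriction to these graphs. -/
theorem result :
    (∀ (V : Type) [Fintype V] (G : SimpleGraph V), G.Connected → ∀ (B : ℕ) (q : ℝ),
      1 ≤ B → 0 ≤ q →
      (∀ U : Set V, (G.induce U).Connected →
        (Fintype.card V : ℝ) < U.ncard * (Real.log (Fintype.card V) + 1) ^ 2 →
        (∀ v ∈ U, ({w | w ∈ U ∧ G.Adj v w} : Set V).ncard + 1 < B) →
        Expander (G.induce U) (1 / (2 * B * (Real.log (Fintype.card V) + 1) ^ 4)) →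
        (copNumber (G.induce U) : ℝ) ≤ q) →
      (copNumber G : ℝ) ≤ Fintype.card V / B + 4162 * √(Fintype.card V) + q) ∧
    (∀ C : ℝ, 0 ≤ C → MeynielForExpanders C →
      ∀ (V : Type) [Fintype V] (G : SimpleGraph V), G.Connected →
        (copNumber G : ℝ) ≤ (4163 + C) * √(Fintype.card V)) ∧
    ((∃ C : ℝ, 0 < C ∧ ∀ (V : Type) [Fintype V] (G : SimpleGraph V), G.Connected →
        (copNumber G : ℝ) ≤ C * √(Fintype.card V)) ↔
      ∃ C : ℝ, 0 < C ∧ MeynielForExpanders C) := by
  refine ⟨fun V _ G hG B q hB hq h =>
    Pool.Agent.L5helper67.Mey.general G hG B hB q hq h,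
    fun C hC h => Pool.Agent.L5helper67.Mey.meyniel_of_expanders C hC h, ?_, ?_⟩
  · rintro ⟨C, hC, h⟩
    exact ⟨C, hC, fun V _ G hG _ _ => h V G hG⟩
  · rintro ⟨C, hC, h⟩
    exact ⟨4163 + C, by linarith, Pool.Agent.L5helper67.Mey.meyniel_of_expanders C hC.le h⟩

end Pool.Agent.Results.MP_964892_co.ReductionToExpanders
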